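import Mathlib
import Pool.Agent.Run7.h402.PT.C4

/-!
# Problem `MP_f686a1_nt`: almost all admissible sets with a growing number of shifts

For all large `H` and all `k ≤ (log H) ^ (1 / 50)`, all but a proportion `exp (-(log H) ^ (1 / 50))` of the admissible
`k`-element subsets `A` of `{0, …, H}` have at least `H * exp (-(log H) ^ (1 / 24))` positive integers `n ≤ H` such that all
`n + a`, `a ∈ A`, are prime.
-/

set_option autoImplicit false

open Finset
open scoped Classical

namespace Pool.Agent.Results.MP_f686a1_nt.AlmostAllManyShifts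

/-- admissibility of a finite set of shifts -/
def Admissible (A : Finset ℕ) : Prop := ∀ p : ℕ, p.Prime → ∃ r, r < p ∧ ∀ a ∈ A, a % p ≠ r

/-- the number of positive integers `n ≤ H` for which all `n + a`, `a ∈ A`, are prime -/
def hits (A : Finset ℕ) (H : ℕ) : ℕ := ((Icc 1 H).filter (fun n : ℕ => ∀ a ∈ A, (n + a).Prime)).card

open Run7.h402.PT
open Pool.Agent.H373R2.T7 (pz mem_pz)

/-- the increasing enumeration of a set of shifts, moved by one -/
noncomputable def enum (k : ℕ) (A : Finset ℕ) : Fin k → ℕ :=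
  if h : A.card = k then fun i => A.orderEmbOfFin h i + 1 else fun _ => 0

theorem enum_sub (k : ℕ) (A : Finset ℕ) (h : A.card = k) (i : Fin k) : enum k A i - 1 ∈ A := by
  unfold enum
  rw [dif_pos h, Nat.add_sub_cancel]
  exact A.orderEmbOfFin_mem h i

theorem enum_surj (k : ℕ) (A : Finset ℕ) (h : A.card = k) (a : ℕ) (ha : a ∈ A) : ∃ i, enum k A i = a + 1 := by
  have h1 : a ∈ Set.range (A.orderEmbOfFin h) := by
    rw [A.range_orderEmbOfFin h]
    exact ha
  obtain ⟨i, hi⟩ := h1
  refine ⟨i, ?_⟩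
  unfold enum
  rw [dif_pos h, hi]

theorem enum_inj (k : ℕ) (A B : Finset ℕ) (hA : A.card = k) (hB : B.card = k) (h : enum k A = enum k B) : A = B := by
  have key : ∀ A B : Finset ℕ, A.card = k → B.card = k → enum k A = enum k B → A ⊆ B := by
    intro A B hA hB h a ha
    obtain ⟨i, hi⟩ := enum_surj k A hA a ha
    have h1 := enum_sub k B hB i
    rw [← h, hi, Nat.add_sub_cancel] at h1
    exact h1
  exact subset_antisymm (key A B hA hB h) (key B A hB hA h.symm)

theorem enum_pos (k : ℕ) (A : Finset ℕ) (h : A.card = k) (i : Fin k) : 1 ≤ enum k A i := by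
  unfold enum
  rw [dif_pos h]
  omega

theorem prod_enum (k : ℕ) (A : Finset ℕ) (h : A.card = k) (n : ℕ) : (∀ i, (n + (enum k A i - 1)).Prime) ↔ ∀ a ∈ A, (n + a).Prime := by
  constructor
  · intro h1 a ha
    obtain ⟨i, hi⟩ := enum_surj k A h a ha
    have := h1 i
    rwa [hi, Nat.add_sub_cancel] at this
  · intro h1 i
    exact h1 _ (enum_sub k A h i)

/-- subsets of the rough numbers are admissible -/
theorem rough_adm (z k H : ℕ) (hkz : k ≤ z) (A : Finset ℕ) (hA : A ⊆ (Icc 1 H).filter (fun n => ∀ p ∈ pz z, ¬ p ∣ n)) (hk : A.card = k) :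
    Admissible A := by
  intro p hp
  by_cases hpz : p ≤ z
  · refine ⟨0, hp.pos, fun a ha h => ?_⟩
    have h1 := (mem_filter.1 (hA ha)).2 p (mem_pz.2 ⟨hpz, hp⟩)
    exact h1 (Nat.dvd_of_mod_eq_zero h)
  · push Not at hpz
    by_contra hcon
    push Not at hcon
    have h1 : range p ⊆ A.image (fun a => a % p) := by
      intro r hr
      rw [mem_range] at hr
      obtain ⟨a, ha, har⟩ := hcon r hr
      exact mem_image.2 ⟨a, ha, har⟩
    have h2 := (card_le_card h1).trans card_image_le
    rw [card_range, hk] at h2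
    omega

/-- **Uniform prime tuples with a growing number of shifts, for almost all admissible sets.** -/
theorem result : ∃ H₀ : ℕ, ∀ H : ℕ, H₀ ≤ H → ∀ k : ℕ, 1 ≤ k → (k : ℝ) ≤ Real.log H ^ (1 / 50 : ℝ) →
    (((powersetCard k (range (H + 1))).filter
        (fun A => Admissible A ∧ (hits A H : ℝ) < H * Real.exp (-(Real.log H ^ (1 / 24 : ℝ))))).card : ℝ) ≤
      Real.exp (-(Real.log H ^ (1 / 50 : ℝ))) *
        (((powersetCard k (range (H + 1))).filter (fun A => Admissible A)).card : ℝ) := by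
  obtain ⟨l1, h1⟩ := model_facts
  obtain ⟨C, l2, hC1, h2⟩ := rough_many
  obtain ⟨l3, h3⟩ := grow (16 * C) (1 / 1000) (by linarith) (by norm_num)
  have h4 : ∀ᶠ l : ℝ in Filter.atTop, 13 * 2 ≤ l ^ (1 / 50 : ℝ) :=
    (tendsto_rpow_atTop (show (0 : ℝ) < 1 / 50 by norm_num)).eventually_ge_atTop _
  obtain ⟨l4, h4⟩ := Filter.eventually_atTop.1 h4
  obtain ⟨l5, h5⟩ := Pool.Agent.N475.SP.dom (8 * C) 1 3 one_pos
  set L := max (max (max l1 l2) (max l3 l4)) (max (max l5 100000000) 1) with hL
  have hlim : Filter.Tendsto (fun H : ℕ => Real.log (H : ℝ) ^ (1 / 24 : ℝ)) Filter.atTop Filter.atTop :=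
    (tendsto_rpow_atTop (show (0 : ℝ) < 1 / 24 by norm_num)).comp (Real.tendsto_log_atTop.comp (tendsto_natCast_atTop_atTop (R := ℝ)))
  obtain ⟨H0, hH0⟩ := Filter.eventually_atTop.1 (hlim.eventually_ge_atTop L)
  refine ⟨max H0 2, fun H hH k hk1 hkH => ?_⟩
  have hlL := hH0 H ((le_max_left _ _).trans hH)
  have hH2 : 2 ≤ H := (le_max_right _ _).trans hH
  have hHr : (2 : ℝ) ≤ H := by exact_mod_cast hH2
  have hHpos : (0 : ℝ) < H := by linarith
  set l : ℝ := Real.log H ^ (1 / 24 : ℝ) with hl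
  have hl1 : l1 ≤ l := (((le_max_left _ _).trans (le_max_left _ _)).trans (le_max_left _ _)).trans hlL
  have hl2 : l2 ≤ l := (((le_max_right _ _).trans (le_max_left _ _)).trans (le_max_left _ _)).trans hlL
  have hl3 : l3 ≤ l := (((le_max_left _ _).trans (le_max_right _ _)).trans (le_max_left _ _)).trans hlL
  have hl4 : l4 ≤ l := (((le_max_right _ _).trans (le_max_right _ _)).trans (le_max_left _ _)).trans hlL
  have hl5 : l5 ≤ l := (((le_max_left _ _).trans (le_max_left _ _)).trans (le_max_right _ _)).trans hlL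
  have hl8 : 100000000 ≤ l := (((le_max_right _ _).trans (le_max_left _ _)).trans (le_max_right _ _)).trans hlL
  have hl0 : 0 < l := by linarith
  have hlone : 1 ≤ l := by linarith
  have hlogH : 0 ≤ Real.log H := Real.log_nonneg (by linarith)
  have hl24 : l ^ 24 = Real.log H := by
    rw [hl, ← Real.rpow_natCast, ← Real.rpow_mul hlogH]
    norm_num
  have hk : (k : ℝ) ≤ l ^ (12 / 25 : ℝ) := by
    refine hkH.trans (le_of_eq ?_)
    rw [hl, ← Real.rpow_mul hlogH]
    norm_num
  have hHe : Real.exp (l ^ 24) = H := by rw [hl24, Real.exp_log hHpos]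
  have hH23 : Real.exp (l ^ 23) ≤ H := by
    rw [← hHe]
    apply Real.exp_le_exp.2
    exact pow_le_pow_right₀ hlone (by norm_num)
  have hH41 : ((2 * H : ℕ) : ℝ) ≤ Real.exp (l ^ 41) := by
    push_cast
    have h2e : (2 : ℝ) ≤ Real.exp 1 := by
      have := Real.add_one_le_exp (1 : ℝ)
      linarith
    calc 2 * (H : ℝ) ≤ Real.exp 1 * Real.exp (l ^ 24) := by rw [hHe]; gcongr
      _ = Real.exp (1 + l ^ 24) := (Real.exp_add _ _).symm
      _ ≤ Real.exp (l ^ 41) := by
          apply Real.exp_le_exp.2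
          have e1 : l ^ 25 ≤ l ^ 41 := pow_le_pow_right₀ hlone (by norm_num)
          have e2 : l ^ 25 = l * l ^ 24 := by ring
          have e3 : 1 ≤ l ^ 24 := one_le_pow₀ hlone
          nlinarith
  obtain ⟨Λ, G, hΛs, hΛl, hG0, hfacts⟩ := h1 l hl1
  obtain ⟨hsum, hlow⟩ := hfacts H hH23 hH41 k hk1 hk
  obtain ⟨g1, _, hks⟩ := h3 l hl3 k hk
  set s := √l with hs
  have hs0 : 0 < s := Real.sqrt_pos.2 hl0
  have hss : s * s = l := Real.mul_self_sqrt hl0.le
  have hs4 : 10000 ≤ s := by
    apply Real.le_sqrt_of_sq_le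
    norm_num
    exact hl8
  have hsl : s * 10000 ≤ l := by nlinarith
  set Bad := (powersetCard k (range (H + 1))).filter
        (fun A => Admissible A ∧ (hits A H : ℝ) < H * Real.exp (-l)) with hBad
  set Adm := (powersetCard k (range (H + 1))).filter (fun A => Admissible A) with hAdm
  -- the number of bad sets, from the first moment
  have hl41 : (1 : ℝ) ≤ l ^ 41 := one_le_pow₀ hlone
  have hcard : ∀ A ∈ Bad, A.card = k := fun A hA => (mem_powersetCard.1 (mem_filter.1 hA).1).2
  have hΦ : ∀ A ∈ Bad, H * Real.exp (-(Λ / 400)) / 2 ≤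
      |∑ n ∈ Icc 1 H, (∏ i, Fp (n + enum k A i - 1) - ∏ i, G (n + enum k A i - 1))| := by
    intro A hA
    have hc := hcard A hA
    rw [hBad, mem_filter] at hA
    obtain ⟨hA1, hadm, hhits⟩ := hA
    have hsub := (mem_powersetCard.1 hA1).1
    have ea : ∀ (n : ℕ) (i : Fin k), n + enum k A i - 1 = n + (enum k A i - 1) := by
      intro n i
      have := enum_pos k A hc i
      omega
    have m1 := hlow (fun i => enum k A i - 1) (fun p hp => by
      obtain ⟨r, hr, hra⟩ := hadm p hp
      exact ⟨r, hr, fun i => hra _ (enum_sub k A hc i)⟩)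
    have m2 : ∑ n ∈ Icc 1 H, ∏ i, Fp (n + (enum k A i - 1)) ≤ H * Real.exp (-(Λ / 400)) / 2 := by
      have e1 : ∀ n ∈ Icc 1 H, ∏ i, Fp (n + (enum k A i - 1)) ≤ if (∀ a ∈ A, (n + a).Prime) then (l ^ 41) ^ k else 0 := by
        intro n hn
        rw [mem_Icc] at hn
        split_ifs with hp
        · calc ∏ i, Fp (n + (enum k A i - 1)) ≤ ∏ _i : Fin k, l ^ 41 := by
                apply prod_le_prod (fun i _ => Fp_nonneg _)
                intro i _
                have e2 : Fp (n + (enum k A i - 1)) ≤ Real.log ((n + (enum k A i - 1) : ℕ) : ℝ) := by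
                  unfold Fp
                  split_ifs
                  · exact le_rfl
                  · exact Real.log_natCast_nonneg _
                refine e2.trans ?_
                have e3 : (0 : ℝ) < ((n + (enum k A i - 1) : ℕ) : ℝ) := by exact_mod_cast (by omega)
                rw [Real.log_le_iff_le_exp e3]
                refine le_trans ?_ hH41
                have e4 := hsub (enum_sub k A hc i)
                rw [mem_range] at e4
                exact_mod_cast (by omega)
            _ = (l ^ 41) ^ k := by rw [prod_const, card_univ, Fintype.card_fin]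
        · have : ∃ i, ¬ (n + (enum k A i - 1)).Prime := by
            by_contra hcon
            push Not at hcon
            exact hp ((prod_enum k A hc n).1 hcon)
          obtain ⟨i, hi⟩ := this
          apply le_of_eq
          apply prod_eq_zero (mem_univ i)
          unfold Fp
          rw [if_neg hi]
      refine (sum_le_sum e1).trans ?_
      rw [← sum_filter, sum_const, nsmul_eq_mul]
      have e2 : (((Icc 1 H).filter (fun n : ℕ => ∀ a ∈ A, (n + a).Prime)).card : ℝ) ≤ H * Real.exp (-l) := by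
        have := hhits.le
        unfold hits at this
        exact this
      have e3 : (l ^ 41) ^ k ≤ Real.exp (1 / 1000 * s) := by
        refine le_trans ?_ g1
        have e4 : l ^ 41 ≤ 16 * C * l ^ 50 := by
          have e5 : l ^ 41 ≤ l ^ 50 := pow_le_pow_right₀ hlone (by norm_num)
          have e6 : (0 : ℝ) ≤ l ^ 50 := by positivity
          nlinarith
        gcongr
      calc (((Icc 1 H).filter (fun n : ℕ => ∀ a ∈ A, (n + a).Prime)).card : ℝ) * (l ^ 41) ^ k ≤
          (H * Real.exp (-l)) * Real.exp (1 / 1000 * s) := by gcongr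
        _ = H * Real.exp (-l + 1 / 1000 * s) := by rw [mul_assoc, ← Real.exp_add]
        _ ≤ H * Real.exp (-(Λ / 400) - 1) := by
            gcongr
            linarith
        _ = H * (Real.exp (-(Λ / 400)) * Real.exp (-1)) := by rw [← Real.exp_add]; rfl
        _ ≤ H * (Real.exp (-(Λ / 400)) * (1 / 2)) := by
            gcongr
            rw [Real.exp_neg, inv_le_comm₀ (Real.exp_pos _) (by norm_num)]
            have := Real.add_one_le_exp (1 : ℝ)
            norm_num
            linarith
        _ = _ := by ring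
    have e2 : ∑ n ∈ Icc 1 H, (∏ i, Fp (n + enum k A i - 1) - ∏ i, G (n + enum k A i - 1)) =
        ∑ n ∈ Icc 1 H, ∏ i, Fp (n + (enum k A i - 1)) - ∑ n ∈ Icc 1 H, ∏ i, G (n + (enum k A i - 1)) := by
      simp only [ea]
      rw [sum_sub_distrib]
    rw [e2, abs_sub_comm]
    refine le_trans ?_ (le_abs_self _)
    linarith
  have hsumBad : ∑ A ∈ Bad, |∑ n ∈ Icc 1 H, (∏ i, Fp (n + enum k A i - 1) - ∏ i, G (n + enum k A i - 1))| ≤
      H * Real.exp (-(Λ / 12)) * ((H : ℝ) + 1) ^ k := by
    refine le_trans ?_ hsum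
    rw [← sum_image (f := fun v : Fin k → ℕ => |∑ n ∈ Icc 1 H, (∏ i, Fp (n + v i - 1) - ∏ i, G (n + v i - 1))|)
      (g := enum k) (s := Bad) (fun A hA B hB h => enum_inj k A B (hcard A hA) (hcard B hB) h)]
    apply sum_le_sum_of_subset_of_nonneg
    · intro v hv
      rw [mem_image] at hv
      obtain ⟨A, hA, rfl⟩ := hv
      rw [Fintype.mem_piFinset]
      intro i
      have hc := hcard A hA
      have e4 := (mem_powersetCard.1 (mem_filter.1 hA).1).1 (enum_sub k A hc i)
      have e5 := enum_pos k A hc i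
      rw [mem_range] at e4
      rw [mem_Icc]
      omega
    · intro v _ _
      exact abs_nonneg _
  have hBadcard : (Bad.card : ℝ) * (H * Real.exp (-(Λ / 400)) / 2) ≤ H * Real.exp (-(Λ / 12)) * ((H : ℝ) + 1) ^ k := by
    refine le_trans ?_ hsumBad
    rw [← nsmul_eq_mul, ← sum_const]
    exact sum_le_sum hΦ
  -- the number of admissible sets
  set W := (Icc 1 H).filter (fun n => ∀ p ∈ pz (zl l), ¬ p ∣ n) with hW
  have hWlow := h2 l hl2 H hH23
  have hD5 := h5 l hl5
  rw [one_mul] at hD5
  have hkz : k ≤ zl l := by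
    unfold zl
    apply Nat.le_floor
    have := Real.add_one_le_exp l
    linarith
  have hAdmcard : ((W.card : ℝ) / 2) ^ k / (k : ℝ) ^ k ≤ (Adm.card : ℝ) := by
    have e1 : (powersetCard k W).card ≤ Adm.card := by
      apply card_le_card
      intro A hA
      rw [mem_powersetCard] at hA
      rw [hAdm, mem_filter, mem_powersetCard]
      refine ⟨⟨fun a ha => ?_, hA.2⟩, rough_adm (zl l) k H hkz A hA.1 hA.2⟩
      have := (mem_filter.1 (hA.1 ha)).1
      rw [mem_Icc] at this
      rw [mem_range]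
      omega
    rw [card_powersetCard] at e1
    have e2 := Nat.pow_le_choose (α := ℝ) k W.card
    have e3 : (k.factorial : ℝ) ≤ (k : ℝ) ^ k := by exact_mod_cast k.factorial_le_pow
    have e4 : (W.card : ℝ) / 2 ≤ ((W.card + 1 - k : ℕ) : ℝ) := by
      have e5 : 2 * (k : ℝ) ≤ W.card := by
        have e6 : (8 : ℝ) * C * l ^ 3 ≤ H := by
          refine hD5.trans ?_
          refine le_trans ?_ hH23
          apply Real.exp_le_exp.2
          exact le_self_pow₀ hlone (by norm_num)
        have e7 : C * l ^ 2 * (8 * l) ≤ C * l ^ 2 * (W.card : ℝ) := by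
          calc C * l ^ 2 * (8 * l) = 8 * C * l ^ 3 := by ring
            _ ≤ (H : ℝ) := e6
            _ ≤ _ := hWlow
        have e8 : 8 * l ≤ (W.card : ℝ) := le_of_mul_le_mul_left e7 (by positivity)
        linarith
      have e9 : 2 * k ≤ W.card := by exact_mod_cast e5
      rw [Nat.cast_sub (by omega)]
      push_cast
      linarith
    have e5 : (0 : ℝ) < (k.factorial : ℝ) := by exact_mod_cast k.factorial_pos
    calc ((W.card : ℝ) / 2) ^ k / (k : ℝ) ^ k ≤ ((W.card + 1 - k : ℕ) : ℝ) ^ k / (k.factorial : ℝ) := by gcongr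
      _ ≤ ((W.card.choose k : ℕ) : ℝ) := by
          push_cast at e2 ⊢
          exact e2
      _ ≤ _ := by exact_mod_cast e1
  have hk0 : (0 : ℝ) < k := by exact_mod_cast hk1
  have hratio : ((H : ℝ) + 1) ^ k ≤ Real.exp (1 / 1000 * s) * (Adm.card : ℝ) := by
    have hW0 : 0 ≤ (W.card : ℝ) := Nat.cast_nonneg _
    have e1 : (H : ℝ) + 1 ≤ (16 * C * l ^ 50) * ((W.card : ℝ) / 2 / k) := by
      have e2 : (H : ℝ) + 1 ≤ 2 * (C * l ^ 2 * W.card) := by linarith
      refine e2.trans ?_
      have e3 : (k : ℝ) ≤ l := by nlinarith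
      have e4 : (1 : ℝ) ≤ l / k := by rw [le_div_iff₀ hk0]; linarith
      have e5 : l ^ 3 ≤ l ^ 50 := pow_le_pow_right₀ hlone (by norm_num)
      calc 2 * (C * l ^ 2 * (W.card : ℝ)) = (4 * C * l ^ 2 * ((W.card : ℝ) / 2)) * 1 := by ring
        _ ≤ (4 * C * l ^ 2 * ((W.card : ℝ) / 2)) * (l / k) := by gcongr
        _ = (4 * C * l ^ 3) * ((W.card : ℝ) / 2 / k) := by ring
        _ ≤ (16 * C * l ^ 50) * ((W.card : ℝ) / 2 / k) := by
            gcongr
            norm_num
    calc ((H : ℝ) + 1) ^ k ≤ ((16 * C * l ^ 50) * ((W.card : ℝ) / 2 / k)) ^ k := by gcongr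
      _ = (16 * C * l ^ 50) ^ k * (((W.card : ℝ) / 2) ^ k / (k : ℝ) ^ k) := by rw [mul_pow, div_pow]
      _ ≤ Real.exp (1 / 1000 * s) * (Adm.card : ℝ) := by gcongr
  -- conclusion
  have hAdm0 : 0 ≤ (Adm.card : ℝ) := Nat.cast_nonneg _
  have hfin : (Bad.card : ℝ) ≤ Real.exp (-(s / 26)) * (Adm.card : ℝ) := by
    have e1 : (Bad.card : ℝ) * (H * Real.exp (-(Λ / 400)) / 2) ≤
        (Real.exp (-(s / 26)) * (Adm.card : ℝ)) * (H * Real.exp (-(Λ / 400)) / 2) := by
      refine hBadcard.trans ?_
      have e2 : Real.exp (-(Λ / 12)) * Real.exp (1 / 1000 * s) ≤ Real.exp (-(s / 26)) * (Real.exp (-(Λ / 400)) / 2) := by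
        have e3 : Real.exp (-(Λ / 400)) * Real.exp (-1) ≤ Real.exp (-(Λ / 400)) / 2 := by
          have e30 : Real.exp (-1) ≤ 1 / 2 := by
            rw [Real.exp_neg, inv_le_comm₀ (Real.exp_pos _) (by norm_num)]
            have := Real.add_one_le_exp (1 : ℝ)
            norm_num
            linarith
          have e31 := mul_le_mul_of_nonneg_left e30 (Real.exp_pos (-(Λ / 400))).le
          linarith
        calc Real.exp (-(Λ / 12)) * Real.exp (1 / 1000 * s) = Real.exp (-(Λ / 12) + 1 / 1000 * s) := (Real.exp_add _ _).symm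
          _ ≤ Real.exp (-(s / 26) + (-(Λ / 400) + -1)) := by
              apply Real.exp_le_exp.2
              linarith
          _ = Real.exp (-(s / 26)) * (Real.exp (-(Λ / 400)) * Real.exp (-1)) := by rw [Real.exp_add, Real.exp_add]
          _ ≤ _ := by gcongr
      calc H * Real.exp (-(Λ / 12)) * ((H : ℝ) + 1) ^ k ≤ H * Real.exp (-(Λ / 12)) * (Real.exp (1 / 1000 * s) * (Adm.card : ℝ)) := by gcongr
        _ = H * (Adm.card : ℝ) * (Real.exp (-(Λ / 12)) * Real.exp (1 / 1000 * s)) := by ring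
        _ ≤ H * (Adm.card : ℝ) * (Real.exp (-(s / 26)) * (Real.exp (-(Λ / 400)) / 2)) := by gcongr
        _ = _ := by ring
    exact le_of_mul_le_mul_right e1 (by positivity)
  refine hfin.trans ?_
  apply mul_le_mul_of_nonneg_right _ hAdm0
  apply Real.exp_le_exp.2
  have e1 : Real.log H ^ (1 / 50 : ℝ) = l ^ (12 / 25 : ℝ) := by
    rw [hl, ← Real.rpow_mul hlogH]
    norm_num
  have e2 : l ^ (12 / 25 : ℝ) * l ^ (1 / 50 : ℝ) = s := by
    rw [hs, ← Real.rpow_add hl0, Real.sqrt_eq_rpow]
    norm_num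
  have e3 := h4 l hl4
  have e4 : 0 < l ^ (12 / 25 : ℝ) := by positivity
  rw [e1, ← e2]
  nlinarith

end Pool.Agent.Results.MP_f686a1_nt.AlmostAllManyShifts
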