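import Pool.Agent.Run7.h414.DP.Pi
import Pool.Agent.N625.PT.I

/-!
# Prime tuples for all the multiples of all the integers near random integers with determinantal digits

The digits of the random integer `v` are given by a determinantal random set `S` of positions (a determinantal point process
with an arbitrary Hermitian kernel): the digit number `i` is `y i` if `i ∈ S` and `x i ≠ y i` otherwise. Examples (their
existence is not used and not formalised): the edges of a uniform spanning tree of a graph with `k` edges; stationary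
determinantal processes with any symbol which is not almost everywhere `0` or almost everywhere `1` (for example the discrete
sine process with any density); independent digits; and all the events for such processes whose probability is at least
`1 / k ^ t`, for example a prescribed number of elements of `S`.

Definitions used (in `Pool.Agent.Run7.h414.DP.Law` and `Pool.Agent.Run7.h414.DP.Fam`): `DetLaw`, `GoodPos`, `DetDigits`.

Method: the characteristic function is `det (1 + D A)`; the inequality `|det N|² ≤ exp (tr N* N - k)` for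
`N = 1 + B D B*`, `A = B* B`, bounds it by `exp (- E)` with an energy `E` which is at least a constant times the number of
the good positions near the places where the frequency is far from the rational numbers with small denominators. So all the
multiples of the random integer have a thin large spectrum. The passage from this to
prime tuples is from the starting files (`Pool.Agent.N625.PT.t_tuples`).

`∑ v ∈ piFinset (fun _ => range (b ^ k)), (if P v then 0 else ∏ i, p i (v i))` is the weight, for the product of the `p i`, of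
the vectors without the property `P`.
-/

set_option autoImplicit false

namespace Pool.Agent.Results.MP_f686a1_nt.DeterminantalMultiples

open Finset
open Pool.Agent.Run7.h414.DP (DC DC_nonneg DetDigits fam_dc dom_pi dc_tcls)

/-- The set `{0, a 1, ..., a s}` is admissible: for every prime `p` some class modulo `p` contains none of its elements. -/
def Admissible {s : ℕ} (a : Fin s → ℕ) : Prop :=
  ∀ p : ℕ, p.Prime → ∃ c : ℕ, ¬ 0 ≡ c [MOD p] ∧ ∀ i, ¬ a i ≡ c [MOD p]

/-- the number of the `n ≤ N` for which `n` and all the numbers `n + a i` are primes -/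
def count {s : ℕ} (a : Fin s → ℕ) (N : ℕ) : ℕ := ((Icc 1 N).filter (fun n : ℕ => n.Prime ∧ ∀ i, (n + a i).Prime)).card

/-- the number of the classes `r` modulo `p` for which `p` divides one of the numbers `r`, `r + a i` -/
def nu {s : ℕ} (a : Fin s → ℕ) (p : ℕ) : ℕ := ((range p).filter (fun r => p ∣ r ∨ ∃ i, p ∣ r + a i)).card

/-- the product over the primes `p ≤ z` which occurs in the singular series -/
noncomputable def sing {s : ℕ} (a : Fin s → ℕ) (z : ℕ) : ℝ :=
  ∏ p ∈ (Icc 1 z).filter Nat.Prime, (1 - (nu a p : ℝ) / p) / (1 - 1 / (p : ℝ)) ^ (s + 1)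

/-- The singular series converges, and if `{0, a 1, ..., a s}` is admissible then its value `S` is positive and the number
of the `n ≤ N` for which `n` and all the `n + a i` are primes is `S N / log ^ (s + 1) N` up to a relative error of at most `ε`. -/
def HardyLittlewood {s : ℕ} (ε : ℝ) (N : ℕ) (a : Fin s → ℕ) : Prop :=
  ∃ S : ℝ, Filter.Tendsto (fun z => sing a z) Filter.atTop (nhds S) ∧
    (Admissible a → 0 < S ∧
      |(count a N : ℝ) - S * (N / Real.log N ^ (s + 1))| ≤ ε * (S * (N / Real.log N ^ (s + 1))))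

lemma sing_eq {s : ℕ} (a : Fin s → ℕ) (z : ℕ) : Pool.Agent.H373R2.T7.singZ (fun i => (a i : ℤ)) z = sing a z := by
  unfold Pool.Agent.H373R2.T7.singZ sing
  apply prod_congr rfl
  intro p _
  have : Pool.Agent.H373R2.T7.nuP (fun i => (a i : ℤ)) p = nu a p := by
    unfold Pool.Agent.H373R2.T7.nuP nu
    congr 1
    apply filter_congr
    intro r _
    constructor
    · rintro (h | ⟨i, h⟩)
      · exact Or.inl h
      · refine Or.inr ⟨i, ?_⟩
        simp only at h
        exact_mod_cast h
    · rintro (h | ⟨i, h⟩)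
      · exact Or.inl h
      · refine Or.inr ⟨i, ?_⟩
        simp only
        exact_mod_cast h
  rw [this]

lemma adm_of {s : ℕ} (a : Fin s → ℕ) (h : Admissible a) : Pool.Agent.H373R2.T7.Admissible (fun i => (a i : ℤ)) := by
  intro p hp
  obtain ⟨c, h1, h2⟩ := h p hp
  refine ⟨-(c : ℤ), ?_, fun i => ?_⟩
  · intro h3
    apply h1
    rw [Int.dvd_neg] at h3
    have h4 : p ∣ c := by exact_mod_cast h3
    exact ((Nat.modEq_zero_iff_dvd).2 h4).symm
  · intro h3
    apply h2 i
    apply Nat.ModEq.symm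
    rw [Nat.modEq_iff_dvd]
    have e : ((a i : ℕ) : ℤ) - (c : ℤ) = -(c : ℤ) + a i := by ring
    rw [e]
    exact h3

lemma hl_of {s : ℕ} {ε : ℝ} {U N : ℕ} {a : Fin s → ℕ} (h : Pool.Agent.W93.TD.HLs ε U N a) : HardyLittlewood ε N a := by
  obtain ⟨S, h1, -, h3⟩ := h
  refine ⟨S, ?_, fun hadm => h3 (adm_of a hadm)⟩
  simp only [sing_eq] at h1
  exact h1

open Classical in
/-- the theorem for the distributions of the integers with determinantal digits (after the starting file
`Pool.Agent.Results.MP_f686a1_nt.ExchangeableMultiples`) -/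
theorem main (s : ℕ) (hs : 1 ≤ s) (b : ℕ) (hb : 2 ≤ b) (L : Fin s → ℕ) (η : ℝ) (hη0 : 0 < η) (κ : Fin s → ℤ) (hκ : ∀ i, κ i ≠ 0) (B J J₂ W U : ℕ) (ε : ℝ) (hε : 0 < ε) (hε1 : ε < 1) :
    ∃ k₀ : ℕ, ∀ k : ℕ, k₀ ≤ k → ∀ p : Fin s → ℕ → ℝ, (∀ i, DC b (L i) η k (p i)) →
      ∀ c : Fin s → ℤ, (∀ i, |c i| ≤ B * (b : ℤ) ^ k) →
      ∀ N : ℕ, k ^ (J + 1) * b ^ k ≤ N → N ≤ k ^ J₂ * b ^ k →
        ∑ v ∈ Fintype.piFinset (fun _ : Fin s => range (b ^ k)), (if ∀ q : Fin s → ℕ,
            (∀ i, |(q i : ℤ) - (c i + κ i * v i)| ≤ (k : ℤ) ^ W) → ∀ h : Fin s → ℕ, (∀ i, 1 ≤ h i ∧ h i ≤ k ^ J) →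
            HardyLittlewood ε N (fun i => h i * q i) ∧ (Admissible (fun i => h i * q i) →
              ∀ x : ℝ, (N : ℝ) ≤ x → ∃ n : ℕ, 0 < n ∧ (n : ℝ) ≤ x ∧ n.Prime ∧ ∀ i, (n + h i * q i).Prime)
          then 0 else ∏ i, p i (v i)) ≤ 1 / (k : ℝ) ^ U := by
  obtain ⟨k₀, hmain⟩ := Pool.Agent.N625.PT.t_tuples s hs hb κ (fun i => DC b (L i) η)
    (fun i => dc_tcls b (L i) hb η hη0 (κ i) (hκ i)) B J J₂ W U ε hε
  refine ⟨k₀ + 3, fun k hk p hp c hc N hN1 hN2 => ?_⟩
  refine le_trans (sum_le_sum ?_) (hmain k (by omega) p hp c hc N hN1 hN2)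
  intro v _
  have hpv : 0 ≤ ∏ i, p i (v i) := prod_nonneg fun i _ => DC_nonneg (hp i) _
  by_cases h : ∀ h : Fin s → ℕ, (∀ i, 1 ≤ h i ∧ h i ≤ k ^ J) →
      ∀ q : Fin s → ℕ, (∀ i, |(q i : ℤ) - (c i + κ i * v i)| ≤ (k : ℤ) ^ W) →
        Pool.Agent.W93.TD.HLs ε U N (fun i => h i * q i)
  · rw [if_pos h, if_pos]
    intro q hq h' hh'
    have h1 := hl_of (h h' hh' q hq)
    refine ⟨h1, fun hadm x hx => ?_⟩
    obtain ⟨S, -, h2⟩ := h1
    obtain ⟨hS, h3⟩ := h2 hadm
    have hN3 : 3 ≤ N := by
      have g1 : 1 * b ^ k ≤ k ^ (J + 1) * b ^ k := Nat.mul_le_mul_right _ (Nat.one_le_pow _ _ (by omega))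
      have g2 : k < b ^ k := Nat.lt_pow_self (by omega)
      omega
    have hNr : (3 : ℝ) ≤ N := by exact_mod_cast hN3
    have hlog : 0 < Real.log N := Real.log_pos (by linarith)
    have hpos : 0 < S * (N / Real.log N ^ (s + 1)) := by positivity
    have h4 : (0 : ℝ) < (count (fun i => h' i * q i) N : ℝ) := by
      have := (abs_le.1 h3).1
      nlinarith
    have h5 : 0 < count (fun i => h' i * q i) N := by exact_mod_cast h4
    unfold count at h5
    rw [card_pos] at h5
    obtain ⟨n, hn⟩ := h5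
    rw [mem_filter, mem_Icc] at hn
    exact ⟨n, hn.1.1, le_trans (by exact_mod_cast hn.1.2) hx, hn.2.1, hn.2.2⟩
  · rw [if_neg h]
    split_ifs
    · exact hpv
    · exact le_rfl

open Classical in
/-- **Prime tuples for all the multiples.** Let `s ≥ 1`, `b ≥ 2`, `L i`, `η > 0`, `t`, `κ i ≠ 0`, `B`, `J`, `J₂`, `W`, `U` and
`0 < ε < 1` be fixed, let `k` be large, let `k ^ (J + 1) b ^ k ≤ N ≤ k ^ J₂ b ^ k`, let `c i` be arbitrary integers with
`|c i| ≤ B b ^ k`, and let `p i` be dominated, up to the factor `k ^ t`, by distributions of integers with `k`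
determinantal digits (`DetDigits b (L i) η t k (p i)`). The weight, for the product of the `p i`, of the vectors `v` without
the following property is at most `1 / k ^ U`: for ALL the integers `q i ≥ 0` at a distance of at most `k ^ W` from
`c i + κ i * v i` and ALL the factors `1 ≤ h i ≤ k ^ J`: the singular series of the set
`{0, h 1 * q 1, ..., h s * q s}` converges, and if this set is admissible then the formula of Hardy and Littlewood holds
for the number of the `n ≤ N` for which `n` and all the numbers `n + h i * q i` are primes. In particular there is such an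
`n ≤ x` for every real number `x ≥ N`. -/
theorem result (s : ℕ) (hs : 1 ≤ s) (b : ℕ) (hb : 2 ≤ b) (L : Fin s → ℕ) (η : ℝ) (hη : 0 < η) (t : ℕ)
    (κ : Fin s → ℤ) (hκ : ∀ i, κ i ≠ 0) (B J J₂ W U : ℕ) (ε : ℝ) (hε : 0 < ε) (hε1 : ε < 1) :
    ∃ k₀ : ℕ, ∀ k : ℕ, k₀ ≤ k → ∀ p : Fin s → ℕ → ℝ, (∀ i, DetDigits b (L i) η t k (p i)) →
      ∀ c : Fin s → ℤ, (∀ i, |c i| ≤ B * (b : ℤ) ^ k) →
      ∀ N : ℕ, k ^ (J + 1) * b ^ k ≤ N → N ≤ k ^ J₂ * b ^ k →
        ∑ v ∈ Fintype.piFinset (fun _ : Fin s => range (b ^ k)), (if ∀ q : Fin s → ℕ,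
            (∀ i, |(q i : ℤ) - (c i + κ i * v i)| ≤ (k : ℤ) ^ W) → ∀ h : Fin s → ℕ, (∀ i, 1 ≤ h i ∧ h i ≤ k ^ J) →
            HardyLittlewood ε N (fun i => h i * q i) ∧ (Admissible (fun i => h i * q i) →
              ∀ x : ℝ, (N : ℝ) ≤ x → ∃ n : ℕ, 0 < n ∧ (n : ℝ) ≤ x ∧ n.Prime ∧ ∀ i, (n + h i * q i).Prime)
          then 0 else ∏ i, p i (v i)) ≤ 1 / (k : ℝ) ^ U := by
  obtain ⟨k₀, h0⟩ := main s hs b hb L η hη κ hκ B J J₂ W (U + s * t) ε hε hε1
  refine ⟨k₀ + 1, fun k hk p hp c hc N hN1 hN2 => ?_⟩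
  choose μ hμ hpμ using fun i => fam_dc (hp i)
  exact dom_pi (by omega) hpμ _ _ (fun v h3 => h3) (h0 k (by omega) μ hμ c hc N hN1 hN2)

end Pool.Agent.Results.MP_f686a1_nt.DeterminantalMultiples
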