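import Pool.Agent.Run7.h27.MK.Fin
import Pool.Agent.N384.MQ.Quot

/-!
# Prime tuples with shifts in thin families inside intervals of length `N ^ (1/3) log ^ C N`

From Mathlib: `ZMod.stdAddChar`: the additive character `j ↦ exp (2 π i j / q)` of the integers modulo `q`; `ZMod.val`: the
least residue; `Fintype.piFinset S`: the vectors `n` with `n i ∈ S i` for all `i`; `ArithmeticFunction.vonMangoldt`.

Method (project MK of this run, by helper18, 27, 284, 364, 373, 477, 609, 757, 777, 788, 794, 880, 931 and others): the von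
Mangoldt function minus a sieve model has small exponential sums at ALL frequencies in almost all intervals of length
`x ^ (1/3) log ^ C x` (Heath-Brown's identity, mean squares of bilinear sums and of the divisor function over short
intervals on the minor arcs; characters on the major arcs); a discrete form of Gallagher's lemma turns this into mean
squares of the exponential sum over short arcs, and these control the correlations with any bounded function at almost all
shifts of a short family. The passage to tuples is from the starting files (`Pool.Agent.N469.PT`, `Pool.Agent.N699.ST`).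
-/

set_option autoImplicit false

namespace Pool.Agent.Results.MP_f686a1_nt.ShortFamilies

open Finset

/-- The Fourier coefficients of the residues `y i`, `i ∈ s`, modulo `q` at the nonzero frequencies are at most
`η` times the number of the residues: `|∑ i ∈ s, e(h y_i / q)| ≤ η |s|` for all `h ≠ 0` modulo `q`. -/
def Flat {ι : Type} (q : ℕ) [NeZero q] (η : ℝ) (s : Finset ι) (y : ι → ZMod q) : Prop :=
  ∀ h : ZMod q, h ≠ 0 → ‖∑ i ∈ s, (ZMod.stdAddChar (h * y i) : ℂ)‖ ≤ η * s.card

/-- The system of the forms `r` and `d i * r + a i` is admissible: for every prime `p` there is an integer `r` for which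
`p` divides neither `r` nor any of the `d i * r + a i`. -/
def Admissible {s : ℕ} (d a : Fin s → ℕ) : Prop := ∀ p : ℕ, p.Prime → ∃ r : ℕ, ¬ p ∣ r ∧ ∀ i, ¬ p ∣ d i * r + a i

/-- the number of the primes `n ≤ x` for which all the numbers `d i * n + a i` are primes -/
def count {s : ℕ} (d a : Fin s → ℕ) (x : ℕ) : ℕ := ((Icc 1 x).filter fun n => n.Prime ∧ ∀ i, (d i * n + a i).Prime).card

/-- the number of the classes `r` modulo `p` for which `p` divides `r` or one of the numbers `d i * r + a i` -/
def nu {s : ℕ} (d a : Fin s → ℕ) (p : ℕ) : ℕ := ((range p).filter fun r => p ∣ r * ∏ i, (d i * r + a i)).card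

/-- the product over the primes `p ≤ z` which occurs in the singular series -/
noncomputable def sing {s : ℕ} (d a : Fin s → ℕ) (z : ℕ) : ℝ :=
  ∏ p ∈ (Icc 1 z).filter Nat.Prime, (1 - (nu d a p : ℝ) / p) / (1 - 1 / (p : ℝ)) ^ (s + 1)

/-- The singular series converges to a positive number `S`, the sum over the `n ≤ x` of the product of the von Mangoldt
function at `n` and at all the `d i * n + a i` is `S x` up to `x / log ^ U N`, and the number of the primes `n ≤ x` for which
all the `d i * n + a i` are primes is `S x / log ^ (s + 1) N` up to a relative error of at most `ε`. -/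
def HardyLittlewood {s : ℕ} (ε : ℝ) (U N x : ℕ) (d a : Fin s → ℕ) : Prop :=
  ∃ S : ℝ, 0 < S ∧ Filter.Tendsto (sing d a) Filter.atTop (nhds S) ∧
    |∑ n ∈ Icc 1 x, ArithmeticFunction.vonMangoldt n * ∏ i, ArithmeticFunction.vonMangoldt (d i * n + a i) - S * x| ≤
      x / Real.log N ^ U ∧
    |(count d a x : ℝ) - S * (x / Real.log N ^ (s + 1))| ≤ ε * (S * (x / Real.log N ^ (s + 1)))

open Classical in
/-- **(1)** Let `s ≥ 1`, `κ i ≥ 1` (`i < s`), `B`, `A`, `W`, `U` and `ε > 0` be fixed. There are `V` and `C` such that the following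
holds for all large `N`. Let `y i`, `i < s`, be finite families (`y i j`, `j ∈ S i`) of residues modulo arbitrary integers
`q i` with `N ^ (1/3) log ^ C N ≤ q i ≤ B N`, whose Fourier coefficients at the nonzero frequencies are at most
`|S i| / log ^ V N`, and let `0 ≤ c i ≤ B N`. All the vectors `n` of indices `n i ∈ S i`, up to a proportion of at most
`1 / log ^ U N`, have the following property: for ALL integers `0 ≤ t i ≤ log ^ W N`, ALL lengths `N / j` and ALL slopes
`1 ≤ d i ≤ j`, `j ≤ log ^ A N`, for which the system of the forms `m` and `d i * m + a i` with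
`a i = c i + κ i * (y i (n i)) + t i` (least residues) is admissible, the formula of Hardy and Littlewood holds for the
primes `m ≤ N / j` for which all the `d i * m + a i` are primes (for `j = 1`: prime tuples `m`, `m + a i`). So the shifts
`a i` lie in intervals of length about `N ^ (1/3)`.

**(2)** Such families can be very thin (a lemma of the starting files): modulo all large primes `p` the quotients `j / r` of
the integers `0 ≤ j < S` by the primes `r ≤ R` satisfy the hypothesis if `log ^ (V + 4) p ≤ R < p` and `R ^ 2 ≤ S`, so that a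
power of `log p` members suffices. -/
theorem result :
    (∀ s : ℕ, 1 ≤ s → ∀ κ : Fin s → ℕ, (∀ i, 1 ≤ κ i) → ∀ (B A W U : ℕ) (ε : ℝ), 0 < ε →
      ∃ V C N₀ : ℕ, ∀ N : ℕ, N₀ ≤ N → ∀ (q : Fin s → ℕ) [∀ i, NeZero (q i)],
      (∀ i, (N : ℝ) ^ (1 / 3 : ℝ) * Real.log N ^ C ≤ q i) → (∀ i, q i ≤ B * N) →
      ∀ (ι : Fin s → Type) (S : ∀ i, Finset (ι i)) (y : ∀ i, ι i → ZMod (q i)),
      (∀ i, Flat (q i) (1 / Real.log N ^ V) (S i) (y i)) → ∀ c : Fin s → ℕ, (∀ i, c i ≤ B * N) →
      (((Fintype.piFinset S).filter fun n => ¬ ∀ t : Fin s → ℕ, (∀ i, (t i : ℝ) ≤ Real.log N ^ W) →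
        ∀ (j : ℕ) (d : Fin s → ℕ), (j : ℝ) ≤ Real.log N ^ A → (∀ i, 1 ≤ d i ∧ d i ≤ j) →
        Admissible d (fun i => c i + κ i * (y i (n i)).val + t i) →
        HardyLittlewood ε U N (N / j) d (fun i => c i + κ i * (y i (n i)).val + t i)).card : ℝ) ≤
        (∏ i, ((S i).card : ℝ)) / Real.log N ^ U) ∧
    (∀ V : ℕ, ∃ P₀ : ℕ, ∀ p : ℕ, P₀ ≤ p → ∀ [Fact p.Prime], ∀ R S : ℕ, Real.log p ^ (V + 4) ≤ R → R < p → R ^ 2 ≤ S →
      Flat p (1 / Real.log p ^ V) (((Icc 1 R).filter Nat.Prime) ×ˢ range S)
        (fun z => ((z.2 : ℕ) : ZMod p) * ((z.1 : ℕ) : ZMod p)⁻¹)) :=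
  ⟨fun s hs κ hκ B A W U ε hε => Pool.Agent.Run7.h27.MK.short_all Pool.Agent.Run7.h794.MK.flt_all s hs κ hκ B A W U ε hε,
    fun V => Pool.Agent.N384.MQ.flat_quot V⟩

end Pool.Agent.Results.MP_f686a1_nt.ShortFamilies
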