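import Pool.Agent.Run7.h844.RP.TupV

/-!
# Prime tuples for all the multiples of all the integers near the values of generalised polynomials at primes

Nothing is used besides Mathlib in the statement: `Fintype.piFinset` is the set of the vectors `p` with
`X i < p i ≤ 2 X i`, `p i` prime.

Method: exponential sums over primes with the phase of a generalised polynomial: derivative bounds uniform in the
coefficients, van der Corput differencing of all orders, bilinear sums, Vaughan's identity (after `Pool.Agent.H895R3.NK`,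
`Pool.Agent.H373R2.T7`); a discrete Fejér kernel for the passage from real numbers to their integer parts, and a kernel
estimate for the concentration on short intervals which needs only the large frequencies (library
`Pool.Agent.Run7.h844.RP`, after `Pool.Agent.N384.MQ`, `Pool.Agent.N193.PS`). The large spectrum of all the
multiples is thin, and the passage from such exponential sums to prime tuples for almost all shifts is from the starting
files (`Pool.Agent.Y885`), in a generic form: `Pool.Agent.N625.PT` (`t_tuples`).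
-/

set_option autoImplicit false

namespace Pool.Agent.Results.MP_f686a1_nt.ValuesAtPrimes

open Finset

/-- The generalised polynomial `∑ a x * t ^ x`, `x ∈ F`, with real exponents and coefficients. -/
noncomputable def genPoly (F : Finset ℝ) (a : ℝ → ℝ) (t : ℝ) : ℝ := ∑ x ∈ F, a x * t ^ x

/-- `c` is the largest exponent; it is positive and not an integer, and its coefficient is not zero. -/
def Leading (F : Finset ℝ) (a : ℝ → ℝ) (c : ℝ) : Prop :=
  c ∈ F ∧ (∀ x ∈ F, x ≤ c) ∧ 0 < c ∧ (∀ m : ℕ, c ≠ m) ∧ a c ≠ 0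

/-- The set `{0, a 1, ..., a s}` is admissible: for every prime `p` some class modulo `p` contains none of its elements. -/
def Admissible {s : ℕ} (a : Fin s → ℕ) : Prop :=
  ∀ p : ℕ, p.Prime → ∃ c : ℕ, ¬ 0 ≡ c [MOD p] ∧ ∀ i, ¬ a i ≡ c [MOD p]

/-- the number of the `n ≤ N` for which `n` and all the numbers `n + a i` are primes -/
def count {s : ℕ} (a : Fin s → ℕ) (N : ℕ) : ℕ := ((Icc 1 N).filter (fun n : ℕ => n.Prime ∧ ∀ i, (n + a i).Prime)).card

/-- the number of the classes `r` modulo `p` for which `p` divides one of the numbers `r`, `r + a i` -/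
def nu {s : ℕ} (a : Fin s → ℕ) (p : ℕ) : ℕ := ((range p).filter (fun r => p ∣ r ∨ ∃ i, p ∣ r + a i)).card

/-- the product over the primes `p ≤ z` which occurs in the singular series -/
noncomputable def sing {s : ℕ} (a : Fin s → ℕ) (z : ℕ) : ℝ :=
  ∏ p ∈ (Icc 1 z).filter Nat.Prime, (1 - (nu a p : ℝ) / p) / (1 - 1 / (p : ℝ)) ^ (s + 1)

/-- The singular series converges, and if `{0, a 1, ..., a s}` is admissible then its value `S` is positive and the number
of the `n ≤ N` for which `n` and all the `n + a i` are primes is `S N / log ^ (s + 1) N` up to a relative error of at most `ε`. -/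
def HardyLittlewood {s : ℕ} (ε : ℝ) (N : ℕ) (a : Fin s → ℕ) : Prop :=
  ∃ S : ℝ, Filter.Tendsto (fun z => sing a z) Filter.atTop (nhds S) ∧
    (Admissible a → 0 < S ∧
      |(count a N : ℝ) - S * (N / Real.log N ^ (s + 1))| ≤ ε * (S * (N / Real.log N ^ (s + 1))))

/-- For ALL the integers `q i ≥ 0` with `|q i - y i| ≤ R` and ALL the factors `1 ≤ h i ≤ H`: the singular series of the set
`{0, h 1 * q 1, ..., h s * q s}` converges, and if this set is admissible then the formula of Hardy and Littlewood holds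
for the number of the `n ≤ N` for which `n` and all the numbers `n + h i * q i` are primes, and there is such an `n ≤ x`
for every real number `x ≥ N`. -/
def Near {s : ℕ} (ε : ℝ) (N : ℕ) (H R : ℝ) (y : Fin s → ℝ) : Prop :=
  ∀ q : Fin s → ℕ, (∀ i, |(q i : ℝ) - y i| ≤ R) → ∀ h : Fin s → ℕ, (∀ i, 1 ≤ h i ∧ (h i : ℝ) ≤ H) →
    HardyLittlewood ε N (fun i => h i * q i) ∧ (Admissible (fun i => h i * q i) →
      ∀ x : ℝ, (N : ℝ) ≤ x → ∃ n : ℕ, 0 < n ∧ (n : ℝ) ≤ x ∧ n.Prime ∧ ∀ i, (n + h i * q i).Prime)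

lemma sing_eq {s : ℕ} (a : Fin s → ℕ) (z : ℕ) : Pool.Agent.H373R2.T7.singZ (fun i => (a i : ℤ)) z = sing a z := by
  unfold Pool.Agent.H373R2.T7.singZ sing
  apply prod_congr rfl
  intro p _
  have : Pool.Agent.H373R2.T7.nuP (fun i => (a i : ℤ)) p = nu a p := by
    unfold Pool.Agent.H373R2.T7.nuP nu
    congr 1
    apply filter_congr
    intro r _
    constructor
    · rintro (h | ⟨i, h⟩)
      · exact Or.inl h
      · refine Or.inr ⟨i, ?_⟩
        simp only at h
        exact_mod_cast h
    · rintro (h | ⟨i, h⟩)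
      · exact Or.inl h
      · refine Or.inr ⟨i, ?_⟩
        simp only
        exact_mod_cast h
  rw [this]

lemma adm_of {s : ℕ} (a : Fin s → ℕ) (h : Admissible a) : Pool.Agent.H373R2.T7.Admissible (fun i => (a i : ℤ)) := by
  intro p hp
  obtain ⟨c, h1, h2⟩ := h p hp
  refine ⟨-(c : ℤ), ?_, fun i => ?_⟩
  · intro h3
    apply h1
    rw [Int.dvd_neg] at h3
    have h4 : p ∣ c := by exact_mod_cast h3
    exact ((Nat.modEq_zero_iff_dvd).2 h4).symm
  · intro h3
    apply h2 i
    apply Nat.ModEq.symm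
    rw [Nat.modEq_iff_dvd]
    have e : ((a i : ℕ) : ℤ) - (c : ℤ) = -(c : ℤ) + a i := by ring
    rw [e]
    exact h3

lemma hl_of {s : ℕ} {ε : ℝ} {U N : ℕ} {a : Fin s → ℕ} (h : Pool.Agent.W93.TD.HLs ε U N a) : HardyLittlewood ε N a := by
  obtain ⟨S, h1, -, h3⟩ := h
  refine ⟨S, ?_, fun hadm => h3 (adm_of a hadm)⟩
  simp only [sing_eq] at h1
  exact h1

open Classical in
/-- Let `s ≥ 1` and let `f i`, `i < s`, be generalised polynomials whose largest exponents `c i` are positive and not
integers, and let `A`, `J`, `J₂`, `W`, `U` and `0 < ε < 1` be fixed. Let `M` be large and let the sizes `X i` satisfy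
`X i ^ (c i) ≤ M ≤ X i ^ (c i) log ^ A M`. Let `z i` be any real numbers with `|z i| ≤ M`, and let
`M log ^ (J + 6) M ≤ N ≤ M log ^ J₂ M`. Then all the vectors `p` of primes `X i < p i ≤ 2 X i`, with at most
`(∏ X i) / log ^ U M` exceptions, have the following property: for ALL the integers `q i ≥ 0` at a distance of at most
`log ^ W M` from `f i (p i) + z i` and ALL the factors `1 ≤ h i ≤ log ^ J M`, the singular series of the set
`{0, h 1 * q 1, ..., h s * q s}` converges, and if this set is admissible then the formula of Hardy and Littlewood holds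
for the number of the `n ≤ N` for which `n` and all the numbers `n + h i * q i` are primes. In particular there is such an
`n ≤ x` for every real number `x ≥ N`. -/
theorem result (s : ℕ) (hs : 1 ≤ s) (F : Fin s → Finset ℝ) (a : Fin s → ℝ → ℝ) (c : Fin s → ℝ)
    (hF : ∀ i, Leading (F i) (a i) (c i)) (A J J₂ W U : ℕ) (ε : ℝ) (hε : 0 < ε) (hε1 : ε < 1) :
    ∃ M₀ : ℕ, ∀ M : ℕ, M₀ ≤ M → ∀ X : Fin s → ℕ,
      (∀ i, (X i : ℝ) ^ (c i) ≤ M ∧ (M : ℝ) ≤ (X i : ℝ) ^ (c i) * Real.log M ^ A) →
      ∀ z : Fin s → ℝ, (∀ i, |z i| ≤ M) →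
      ∀ N : ℕ, (M : ℝ) * Real.log M ^ (J + 6) ≤ N → (N : ℝ) ≤ M * Real.log M ^ J₂ →
      (((Fintype.piFinset fun i => (Ioc (X i) (2 * X i)).filter Nat.Prime).filter fun p =>
        ¬ Near ε N (Real.log M ^ J) (Real.log M ^ W) (fun i => genPoly (F i) (a i) (p i) + z i)).card : ℝ) ≤
        (∏ i, (X i : ℝ)) / Real.log M ^ U := by
  obtain ⟨M₀, h0⟩ := Pool.Agent.Run7.h844.RP.tup_primes s hs F c (fun i => (hF i).1) (fun i => (hF i).2.2.2.1)
    (fun i => (hF i).2.2.1) (fun i => (hF i).2.1) a (fun i => (hF i).2.2.2.2) A J J₂ W U ε hε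
  obtain ⟨M₁, h1⟩ := Filter.eventually_atTop.mp (Pool.Agent.N384.MQ.ev_log_ge 1)
  refine ⟨M₀ + M₁ + 3, fun M hM X hX z hz N hN1 hN2 => ?_⟩
  refine le_trans ?_ (h0 M (by omega) X hX z hz N hN1 hN2)
  apply Nat.cast_le.2
  apply card_le_card
  intro p hp
  rw [mem_filter] at hp ⊢
  refine ⟨hp.1, fun hcon => hp.2 fun q hq h hh => ?_⟩
  have h2 := hl_of (hcon (fun i => (q i : ℤ)) (fun i => by rw [Int.cast_natCast]; exact hq i)
    (fun i => Int.natCast_nonneg _) h hh)
  simp only [Int.toNat_natCast] at h2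
  refine ⟨h2, fun hadm x hx => ?_⟩
  obtain ⟨S, -, h3⟩ := h2
  obtain ⟨hS, h4⟩ := h3 hadm
  have hl1 := h1 M (by omega)
  have hM3 : (3 : ℝ) ≤ M := by exact_mod_cast (by omega : 3 ≤ M)
  have hXr : (3 : ℝ) ≤ N := by
    have : (1 : ℝ) ≤ Real.log M ^ (J + 6) := one_le_pow₀ hl1
    nlinarith
  have hlog : 0 < Real.log N := Real.log_pos (by linarith)
  have hpos : 0 < S * (N / Real.log N ^ (s + 1)) := by positivity
  have h5 : (0 : ℝ) < (count (fun i => h i * q i) N : ℝ) := by
    have := (abs_le.1 h4).1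
    nlinarith
  have h6 : 0 < count (fun i => h i * q i) N := by exact_mod_cast h5
  unfold count at h6
  rw [card_pos] at h6
  obtain ⟨n, hn⟩ := h6
  rw [mem_filter, mem_Icc] at hn
  exact ⟨n, hn.1.1, le_trans (by exact_mod_cast hn.1.2) hx, hn.2.1, hn.2.2⟩

end Pool.Agent.Results.MP_f686a1_nt.ValuesAtPrimes
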